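import Mathlib
import Pool.Agent.H56.Asq2

open scoped ZeroAtInfty
open H56.Asq

namespace Pool.Agent.Results.MP_b5276a_an.NotASQ

/-- The real Banach space c0 is almost square, while its completed symmetric projective tensor
square is not. -/
theorem result : CompleteSpace C₀(ℕ, ℝ) ∧ ASQ C₀(ℕ, ℝ) ∧ ¬ ASQ (SymProj C₀(ℕ, ℝ)) :=
  ⟨inferInstance, asq_c0,
    not_asq (UniformSpace.Completion.toComplL (𝕜 := ℝ) (E := S2 c0)).toLinearMap
      (fun u => UniformSpace.Completion.norm_coe (E := S2 c0) u)
      (UniformSpace.Completion.denseRange_coe (α := S2 c0))⟩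

end Pool.Agent.Results.MP_b5276a_an.NotASQ
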